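import Mathlib

/-!
# MP_375cbb_nt, Q1 holds: the first even denominator of the hypergeometric Bernoulli numbers

For every `b ≥ 1` the least `n` such that the denominator of `B_n^{(b)}` is even is
`2 ^ ν₂(b)`, which is `ν₂(b) + 1` when `4 ∤ b`.
-/

set_option autoImplicit false

open Finset PowerSeries

namespace Pool.Agent.Results.MP_375cbb_nt.FirstEvenDenominator

/-- `B` is the sequence of hypergeometric Bernoulli numbers `B_n^{(b)}`: in `ℚ[[z]]`
`(∑ B_n z^n / n!) * (e^z - ∑_{k < b} z^k / k!) = z^b / b!`. -/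
def IsHypBernoulli (b : ℕ) (B : ℕ → ℚ) : Prop :=
  (PowerSeries.mk fun n => B n / (n.factorial : ℚ)) *
      (PowerSeries.exp ℚ - ∑ k ∈ range b, PowerSeries.monomial k (1 / (k.factorial : ℚ))) =
    PowerSeries.monomial b (1 / (b.factorial : ℚ))

/-- the conjectured value `α(b)` -/
def α (b : ℕ) : ℕ := if b % 4 = 0 then 2 ^ padicValNat 2 b else padicValNat 2 b + 1

theorem tail_eq (b : ℕ) :
    PowerSeries.exp ℚ - ∑ k ∈ range b, PowerSeries.monomial k (1 / (k.factorial : ℚ)) =
      PowerSeries.X ^ b * PowerSeries.mk fun j => 1 / ((b + j).factorial : ℚ) := by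
  ext n
  rw [map_sub, map_sum, PowerSeries.coeff_exp, PowerSeries.coeff_X_pow_mul']
  simp only [PowerSeries.coeff_monomial, PowerSeries.coeff_mk, map_div₀, map_one, map_natCast]
  rw [Finset.sum_ite_eq]
  by_cases h : b ≤ n
  · simp [h, Nat.not_lt.2 h]
  · simp [h, Nat.lt_of_not_le h]

theorem isHyp_iff (b : ℕ) (B : ℕ → ℚ) :
    IsHypBernoulli b B ↔
      (PowerSeries.mk fun n => B n / (n.factorial : ℚ)) *
        (PowerSeries.mk fun j => 1 / ((b + j).factorial : ℚ)) =
          PowerSeries.C (1 / (b.factorial : ℚ)) := by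
  unfold IsHypBernoulli
  rw [tail_eq]
  have h1 : PowerSeries.monomial b (1 / (b.factorial : ℚ)) =
      PowerSeries.X ^ b * PowerSeries.C (1 / (b.factorial : ℚ)) := by
    ext n
    rw [PowerSeries.coeff_X_pow_mul', PowerSeries.coeff_monomial, PowerSeries.coeff_C]
    by_cases h : b ≤ n
    · by_cases h' : n = b
      · subst h'; simp
      · have : n - b ≠ 0 := by omega
        simp [h, h', this]
    · have : n ≠ b := by omega
      simp [h, this]
  rw [h1, mul_left_comm]
  constructor
  · intro h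
    exact mul_left_cancel₀ (pow_ne_zero _ PowerSeries.X_ne_zero) h
  · intro h
    rw [h]

theorem fact_ne (n : ℕ) : (n.factorial : ℚ) ≠ 0 := by exact_mod_cast n.factorial_ne_zero

/-- existence and uniqueness -/
theorem exists_unique (b : ℕ) : ∃! B : ℕ → ℚ, IsHypBernoulli b B := by
  set F : PowerSeries ℚ := PowerSeries.mk fun j => 1 / ((b + j).factorial : ℚ) with hF
  have hF0 : PowerSeries.constantCoeff F ≠ 0 := by
    rw [hF, ← PowerSeries.coeff_zero_eq_constantCoeff_apply, PowerSeries.coeff_mk]
    exact div_ne_zero one_ne_zero (fact_ne _)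
  have hFne : F ≠ 0 := by
    intro h
    rw [h] at hF0
    simp at hF0
  refine ⟨fun n => n.factorial * PowerSeries.coeff n (PowerSeries.C (1 / (b.factorial : ℚ)) * F⁻¹),
    ?_, ?_⟩
  · dsimp only
    rw [isHyp_iff]
    have : (PowerSeries.mk fun n => (n.factorial : ℚ) *
        PowerSeries.coeff n (PowerSeries.C (1 / (b.factorial : ℚ)) * F⁻¹) / (n.factorial : ℚ)) =
        PowerSeries.C (1 / (b.factorial : ℚ)) * F⁻¹ := by
      ext n
      rw [PowerSeries.coeff_mk, mul_div_cancel_left₀ _ (fact_ne n)]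
    rw [this, mul_assoc, PowerSeries.inv_mul_cancel _ hF0, mul_one]
  · intro B hB
    rw [isHyp_iff] at hB
    funext n
    have h1 : (PowerSeries.mk fun n => B n / (n.factorial : ℚ)) =
        PowerSeries.C (1 / (b.factorial : ℚ)) * F⁻¹ := by
      rw [← hB, mul_assoc, PowerSeries.mul_inv_cancel _ hF0, mul_one]
    have h2 := congrArg (PowerSeries.coeff n) h1
    rw [PowerSeries.coeff_mk] at h2
    rw [← h2, mul_div_cancel₀ _ (fact_ne n)]

/-- the recursion with binomial coefficients -/
theorem recursion {b : ℕ} {B : ℕ → ℚ} (hB : IsHypBernoulli b B) (n : ℕ) :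
    ∑ p ∈ antidiagonal n, (n.choose p.2 : ℚ) * B p.1 * (1 / ((b + p.2).choose p.2 : ℚ)) =
      if n = 0 then 1 else 0 := by
  rw [isHyp_iff] at hB
  have h := congrArg (PowerSeries.coeff n) hB
  rw [PowerSeries.coeff_mul, PowerSeries.coeff_C] at h
  simp only [PowerSeries.coeff_mk] at h
  have h2 : (n.factorial : ℚ) * b.factorial * ∑ p ∈ antidiagonal n,
      B p.1 / (p.1.factorial : ℚ) * (1 / ((b + p.2).factorial : ℚ)) =
      ∑ p ∈ antidiagonal n, (n.choose p.2 : ℚ) * B p.1 * (1 / ((b + p.2).choose p.2 : ℚ)) := by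
    rw [mul_sum]
    refine sum_congr rfl fun p hp => ?_
    rw [Finset.HasAntidiagonal.mem_antidiagonal] at hp
    have e1 : ((b + p.2).choose p.2 : ℚ) * (p.2.factorial : ℚ) * (b.factorial : ℚ) =
        ((b + p.2).factorial : ℚ) := by
      have := Nat.choose_mul_factorial_mul_factorial (Nat.le_add_left p.2 b)
      rw [Nat.add_sub_cancel] at this
      exact_mod_cast this
    have e2 : (n.choose p.2 : ℚ) * (p.2.factorial : ℚ) * (p.1.factorial : ℚ) =
        (n.factorial : ℚ) := by
      have := Nat.choose_mul_factorial_mul_factorial (show p.2 ≤ n by omega)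
      rw [show n - p.2 = p.1 by omega] at this
      exact_mod_cast this
    have hc : ((b + p.2).choose p.2 : ℚ) ≠ 0 := by
      exact_mod_cast (Nat.choose_pos (Nat.le_add_left p.2 b)).ne'
    rw [← e1, ← e2]
    have := fact_ne b
    have := fact_ne p.1
    have := fact_ne p.2
    field_simp
  rw [← h2, h]
  by_cases hn : n = 0
  · subst hn
    have := fact_ne b
    simp [this]
  · simp [hn]

/-- rationals with odd denominator -/
def OddDen (q : ℚ) : Prop := Odd q.den

theorem OddDen.add {p q : ℚ} (hp : OddDen p) (hq : OddDen q) : OddDen (p + q) :=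
  Odd.of_dvd_nat (Odd.mul hp hq) (Rat.add_den_dvd p q)

theorem OddDen.mul {p q : ℚ} (hp : OddDen p) (hq : OddDen q) : OddDen (p * q) :=
  Odd.of_dvd_nat (Odd.mul hp hq) (Rat.mul_den_dvd p q)

theorem OddDen.neg {p : ℚ} (hp : OddDen p) : OddDen (-p) := by
  unfold OddDen; rwa [Rat.neg_den]

theorem oddDen_nat (n : ℕ) : OddDen (n : ℚ) := by
  unfold OddDen; rw [Rat.den_natCast]; exact odd_one

theorem oddDen_sum {ι : Type*} (s : Finset ι) (f : ι → ℚ) (h : ∀ i ∈ s, OddDen (f i)) :
    OddDen (∑ i ∈ s, f i) := by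
  classical
  induction s using Finset.induction_on with
  | empty => simpa using oddDen_nat 0
  | insert a s ha ih =>
    rw [sum_insert ha]
    exact (h a (mem_insert_self a s)).add (ih fun i hi => h i (mem_insert_of_mem hi))

theorem den_inv {n : ℕ} (hn : 0 < n) : (1 / (n : ℚ)).den = n := by
  rw [one_div, Rat.inv_natCast_den_of_pos hn]

/-- `C(2^m c + j, j)` is odd for `j < 2^m` -/
theorem choose_odd (m : ℕ) : ∀ c j : ℕ, j < 2 ^ m → Odd ((2 ^ m * c + j).choose j) := by
  induction m with
  | zero =>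
    intro c j hj
    have : j = 0 := by simpa using hj
    subst this
    simp
  | succ m ih =>
    intro c j hj
    haveI : Fact (Nat.Prime 2) := ⟨Nat.prime_two⟩
    have h1 := Choose.choose_modEq_choose_mod_mul_choose_div_nat (p := 2)
      (n := 2 ^ (m + 1) * c + j) (k := j)
    have e1 : (2 ^ (m + 1) * c + j) % 2 = j % 2 := by
      rw [pow_succ, mul_comm (2 ^ m) 2, mul_assoc, Nat.mul_add_mod]
    have e2 : (2 ^ (m + 1) * c + j) / 2 = 2 ^ m * c + j / 2 := by
      rw [pow_succ, mul_comm (2 ^ m) 2, mul_assoc, Nat.mul_add_div (by norm_num)]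
    rw [e1, e2, Nat.choose_self, one_mul] at h1
    have h2 := ih c (j / 2) (by rw [pow_succ] at hj; omega)
    rw [Nat.odd_iff] at h2 ⊢
    unfold Nat.ModEq at h1
    exact Eq.trans h1 h2

/-- `C(2^m (u+1), 2^m)` is even for odd `u` -/
theorem choose_even (m : ℕ) {u : ℕ} (hu : Odd u) : Even ((2 ^ m * (u + 1)).choose (2 ^ m)) := by
  induction m with
  | zero =>
    simp only [pow_zero, one_mul, Nat.choose_one_right]
    exact hu.add_one
  | succ m ih =>
    haveI : Fact (Nat.Prime 2) := ⟨Nat.prime_two⟩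
    have h1 := Choose.choose_modEq_choose_mod_mul_choose_div_nat (p := 2)
      (n := 2 ^ (m + 1) * (u + 1)) (k := 2 ^ (m + 1))
    have e1 : (2 ^ (m + 1) * (u + 1)) % 2 = 0 := by
      rw [pow_succ, mul_comm (2 ^ m) 2, mul_assoc, Nat.mul_mod_right]
    have e2 : (2 ^ (m + 1) * (u + 1)) / 2 = 2 ^ m * (u + 1) := by
      rw [pow_succ, mul_comm (2 ^ m) 2, mul_assoc, Nat.mul_div_cancel_left _ (by norm_num)]
    have e3 : 2 ^ (m + 1) % 2 = 0 := by rw [pow_succ, Nat.mul_mod_left]
    have e4 : 2 ^ (m + 1) / 2 = 2 ^ m := by rw [pow_succ, Nat.mul_div_cancel _ (by norm_num)]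
    rw [e1, e2, e3, e4, Nat.choose_self, one_mul] at h1
    rw [Nat.even_iff] at ih ⊢
    unfold Nat.ModEq at h1
    exact Eq.trans h1 ih

theorem alpha_eq {b : ℕ} (hb : 1 ≤ b) : α b = 2 ^ padicValNat 2 b := by
  unfold α
  split_ifs with h
  · rfl
  · haveI : Fact (Nat.Prime 2) := ⟨Nat.prime_two⟩
    have h2 : padicValNat 2 b < 2 := by
      by_contra h3
      push Not at h3
      have : 2 ^ 2 ∣ b := (pow_dvd_pow 2 h3).trans pow_padicValNat_dvd
      apply h
      omega
    interval_cases padicValNat 2 b <;> norm_num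

/-- **Q1.** -/
theorem result : ∀ b : ℕ, 1 ≤ b →
    (∃! B : ℕ → ℚ, IsHypBernoulli b B) ∧
    ∀ B : ℕ → ℚ, IsHypBernoulli b B → IsLeast {n : ℕ | Even (B n).den} (α b) := by
  intro b hb
  refine ⟨exists_unique b, fun B hB => ?_⟩
  haveI : Fact (Nat.Prime 2) := ⟨Nat.prime_two⟩
  rw [alpha_eq hb]
  obtain ⟨u, hu⟩ : 2 ^ padicValNat 2 b ∣ b := pow_padicValNat_dvd
  set m := padicValNat 2 b with hm
  have huo : Odd u := by
    rw [← Nat.not_even_iff_odd]
    intro he
    obtain ⟨w, hw⟩ := he
    have : 2 ^ (m + 1) ∣ b := ⟨w, by rw [hu, hw, pow_succ]; ring⟩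
    exact pow_succ_padicValNat_not_dvd (by omega) this
  have hB0 : B 0 = 1 := by
    have := recursion hB 0
    simpa using this
  -- solve the recursion for `B n`
  have hrec : ∀ n, 0 < n → B n = -∑ p ∈ (antidiagonal n).erase (n, 0),
      (n.choose p.2 : ℚ) * B p.1 * (1 / ((b + p.2).choose p.2 : ℚ)) := by
    intro n hn
    have h1 := recursion hB n
    rw [if_neg hn.ne', ← Finset.add_sum_erase _ _ (show (n, 0) ∈ antidiagonal n by simp)] at h1
    simp only [Nat.choose_zero_right, Nat.cast_one, one_mul, div_one, mul_one] at h1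
    linarith
  have hodd : ∀ n, n < 2 ^ m → OddDen (B n) := by
    intro n
    induction n using Nat.strong_induction_on with
    | _ n ih =>
      intro hn
      rcases Nat.eq_zero_or_pos n with h0 | h0
      · subst h0
        rw [hB0]
        exact oddDen_nat 1
      · rw [hrec n h0]
        refine (oddDen_sum _ _ fun p hp => ?_).neg
        rw [mem_erase, Finset.HasAntidiagonal.mem_antidiagonal] at hp
        have hp1 : p.1 < n := by
          have : p.2 ≠ 0 := by
            intro h
            apply hp.1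
            ext
            · simp; omega
            · simpa using h
          omega
        refine ((oddDen_nat _).mul (ih _ hp1 (by omega))).mul ?_
        have hc := choose_odd m u p.2 (by omega)
        rw [← hu] at hc
        unfold OddDen
        rw [den_inv hc.pos]
        exact hc
  constructor
  · -- the denominator of `B (2^m)` is even
    by_contra hne
    rw [Set.mem_ofPred_eq, Nat.not_even_iff_odd] at hne
    have hpos : 0 < 2 ^ m := by positivity
    have h1 := hrec (2 ^ m) hpos
    rw [← Finset.add_sum_erase _ _ (show (0, 2 ^ m) ∈ (antidiagonal (2 ^ m)).erase (2 ^ m, 0) by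
      rw [mem_erase, Finset.HasAntidiagonal.mem_antidiagonal]
      refine ⟨?_, by simp⟩
      intro h
      have := congrArg Prod.fst h
      simp only at this
      omega)] at h1
    simp only [Nat.choose_self, Nat.cast_one, one_mul, hB0] at h1
    have h2 : OddDen (∑ p ∈ ((antidiagonal (2 ^ m)).erase (2 ^ m, 0)).erase (0, 2 ^ m),
        ((2 ^ m).choose p.2 : ℚ) * B p.1 * (1 / ((b + p.2).choose p.2 : ℚ))) := by
      refine oddDen_sum _ _ fun p hp => ?_
      rw [mem_erase, mem_erase, Finset.HasAntidiagonal.mem_antidiagonal] at hp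
      have hp2 : p.2 ≠ 0 := by
        intro h
        apply hp.2.1
        ext
        · simp; omega
        · simpa using h
      have hp1 : p.1 ≠ 0 := by
        intro h
        apply hp.1
        ext
        · simpa using h
        · simp; omega
      refine ((oddDen_nat _).mul (hodd _ (by omega))).mul ?_
      have hc := choose_odd m u p.2 (by omega)
      rw [← hu] at hc
      unfold OddDen
      rw [den_inv hc.pos]
      exact hc
    have h3 : OddDen (1 / ((b + 2 ^ m).choose (2 ^ m) : ℚ)) := by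
      have : (1 / ((b + 2 ^ m).choose (2 ^ m) : ℚ)) = -B (2 ^ m) +
          -∑ p ∈ ((antidiagonal (2 ^ m)).erase (2 ^ m, 0)).erase (0, 2 ^ m),
        ((2 ^ m).choose p.2 : ℚ) * B p.1 * (1 / ((b + p.2).choose p.2 : ℚ)) := by
        linarith
      rw [this]
      exact OddDen.add (OddDen.neg hne) h2.neg
    unfold OddDen at h3
    rw [den_inv (Nat.choose_pos (Nat.le_add_left _ _))] at h3
    have h4 := choose_even m huo
    rw [mul_add, mul_one, ← hu] at h4
    exact (Nat.not_even_iff_odd.2 h3) h4
  · intro n hn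
    by_contra hlt
    push Not at hlt
    exact (Nat.not_even_iff_odd.2 (hodd n hlt)) hn

end Pool.Agent.Results.MP_375cbb_nt.FirstEvenDenominator
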